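import Pool.Agent.helper94.EU.SpecII

/-!
# Row `eu:ERR` (project eu, MP_ad8ced_nt): the error of the model
-/

set_option autoImplicit false

open Finset

namespace Pool.Agent.EU

open Pool.Agent.FI Pool.Agent.FJ

/-- the double sum for one pair -/
noncomputable def ERR_S (x A : ℕ) (f₁ f₂ : ℤ → ℂ) (z z' : ℤ × ℤ) : ℂ :=
  ∑ l₁ ∈ Ioc (x : ℤ) (2 * x), ∑ l₂ ∈ Ioc (x : ℤ) (2 * x), f₁ l₁ * f₂ l₂ * Ind A z z' l₁ l₂

/-- the model of the double sum for one pair -/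
noncomputable def ERR_S' (x A K : ℕ) (m : ℤ) (f₁ f₂ : ℤ → ℂ) (z z' : ℤ × ℤ) : ℂ :=
  ∑ b ∈ range K, ∑ b' ∈ range K, ∑ l₁ ∈ bl x K b, ∑ l₂ ∈ bl x K b',
    f₁ l₁ * f₂ l₂ * (KT x A K m b b' (uu z' l₂ - uu z l₁) : ℂ)

/-- counting with a majorant -/
private lemma ERR_cnt (x : ℕ) (M2 R : ℝ) (h0 : 0 ≤ M2) (G : ℤ → ℤ → ℂ) (Z : ℤ → ℤ → ℝ)
    (hG : ∀ l₁ ∈ Ioc (x : ℤ) (2 * x), ∀ l₂ ∈ Ioc (x : ℤ) (2 * x), ‖G l₁ l₂‖ ≤ M2 * Z l₁ l₂)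
    (hZ : ∀ l₁, ∑ l₂ ∈ Ioc (x : ℤ) (2 * x), Z l₁ l₂ ≤ R) :
    ‖∑ l₁ ∈ Ioc (x : ℤ) (2 * x), ∑ l₂ ∈ Ioc (x : ℤ) (2 * x), G l₁ l₂‖ ≤ M2 * (x * R) := by
  have h1 : ∀ l₁ ∈ Ioc (x : ℤ) (2 * x), ‖∑ l₂ ∈ Ioc (x : ℤ) (2 * x), G l₁ l₂‖ ≤ M2 * R := by
    intro l₁ hl₁
    refine (norm_sum_le _ _).trans ?_
    refine (Finset.sum_le_sum (fun l₂ hl₂ => hG l₁ hl₁ l₂ hl₂)).trans ?_
    rw [← Finset.mul_sum]
    exact mul_le_mul_of_nonneg_left (hZ l₁) h0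
  refine (norm_sum_le _ _).trans ?_
  refine (Finset.sum_le_sum h1).trans ?_
  rw [Finset.sum_const, Int.card_Ioc]
  have h2 : (2 * (x : ℤ) - x).toNat = x := by omega
  rw [h2, nsmul_eq_mul]
  apply le_of_eq
  ring

/-- the blocks put together, two variables -/
private lemma ERR_blk (hWND : WND_stmt) (x K : ℕ) (hx : 1 ≤ x) (hK : 1 ≤ K) (F : ℤ → ℤ → ℂ) :
    ∑ b ∈ range K, ∑ b' ∈ range K, ∑ l₁ ∈ bl x K b, ∑ l₂ ∈ bl x K b', F l₁ l₂ =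
      ∑ l₁ ∈ Ioc (x : ℤ) (2 * x), ∑ l₂ ∈ Ioc (x : ℤ) (2 * x), F l₁ l₂ := by
  obtain ⟨-, -, h3, -⟩ := hWND
  have h1 : ∀ b ∈ range K, ∑ b' ∈ range K, ∑ l₁ ∈ bl x K b, ∑ l₂ ∈ bl x K b', F l₁ l₂ =
      ∑ l₁ ∈ bl x K b, ∑ l₂ ∈ Ioc (x : ℤ) (2 * x), F l₁ l₂ := by
    intro b _
    rw [Finset.sum_comm]
    exact Finset.sum_congr rfl fun l₁ _ => h3 x K hx hK (fun l₂ => F l₁ l₂)
  rw [Finset.sum_congr rfl h1]
  exact h3 x K hx hK (fun l₁ => ∑ l₂ ∈ Ioc (x : ℤ) (2 * x), F l₁ l₂)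

private lemma ERR_blkR (hWND : WND_stmt) (x K : ℕ) (hx : 1 ≤ x) (hK : 1 ≤ K) (F : ℤ → ℤ → ℝ) :
    ∑ b ∈ range K, ∑ b' ∈ range K, ∑ l₁ ∈ bl x K b, ∑ l₂ ∈ bl x K b', F l₁ l₂ =
      ∑ l₁ ∈ Ioc (x : ℤ) (2 * x), ∑ l₂ ∈ Ioc (x : ℤ) (2 * x), F l₁ l₂ := by
  have h := ERR_blk hWND x K hx hK (fun l₁ l₂ => (F l₁ l₂ : ℂ))
  exact_mod_cast h

private lemma ERR_ind (A : ℕ) (z z' : ℤ × ℤ) (l₁ l₂ : ℤ) :
    |Ind A z z' l₁ l₂| ≤ if Ind A z z' l₁ l₂ ≠ 0 then 1 else 0 := by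
  by_cases h : Ind A z z' l₁ l₂ = 0
  · rw [h]
    simp
  · rw [if_pos h]
    unfold Ind
    split_ifs <;> simp

/-- the bound for the double sum -/
private lemma ERR_bS (hCNI : CNI_stmt) (x N A : ℕ) (hx : 1 ≤ x) (hN : 1 ≤ N) (M : ℝ)
    (f₁ f₂ : ℤ → ℂ) (h1 : ∀ l, ‖f₁ l‖ ≤ M) (h2 : ∀ l, ‖f₂ l‖ ≤ M) (z z' : ℤ × ℤ)
    (hz : z ∈ ZD N) (hz' : z' ∈ ZD N) (hd : dl z z' ≠ 0) :
    ‖ERR_S x A f₁ f₂ z z'‖ ≤ M ^ 2 * (x * (A * (dl z z').natAbs / N + 1)) := by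
  have hM : 0 ≤ M := (norm_nonneg _).trans (h1 0)
  obtain ⟨c1, -, -⟩ := hCNI x N A hx hN z hz z' hz' hd
  unfold ERR_S
  refine ERR_cnt x (M ^ 2) _ (sq_nonneg M) _ (fun l₁ l₂ => if Ind A z z' l₁ l₂ ≠ 0 then 1 else 0) ?_ ?_
  · intro l₁ _ l₂ _
    rw [norm_mul, norm_mul, Complex.norm_real, Real.norm_eq_abs]
    have e1 : ‖f₁ l₁‖ * ‖f₂ l₂‖ ≤ M ^ 2 := by
      rw [sq]
      exact mul_le_mul (h1 _) (h2 _) (norm_nonneg _) hM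
    exact mul_le_mul e1 (ERR_ind A z z' l₁ l₂) (abs_nonneg _) (sq_nonneg M)
  · intro l₁
    rw [Finset.sum_boole]
    exact c1 l₁

/-- the bound for the difference of the double sum and its model -/
private lemma ERR_bD (hCNI : CNI_stmt) (hWND : WND_stmt) (x N A K : ℕ) (hx : 1 ≤ x) (hN : 1 ≤ N) (hK : 1 ≤ K)
    (M Y : ℝ) (hY : 0 ≤ Y) (m : ℤ)
    (f₁ f₂ : ℤ → ℂ) (h1 : ∀ l, ‖f₁ l‖ ≤ M) (h2 : ∀ l, ‖f₂ l‖ ≤ M) (z z' : ℤ × ℤ)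
    (hz : z ∈ ZD N) (hz' : z' ∈ ZD N) (hd : dl z z' ≠ 0) (hs : (N8 z).sign = (N8 z').sign)
    (hZ : ∀ b < K, ∀ b' < K, ∀ l₁ ∈ bl x K b, ∀ l₂ ∈ bl x K b',
      |Ind A z z' l₁ l₂ - KT x A K m b b' (uu z' l₂ - uu z l₁)| ≤ 1 ∧
      (Ind A z z' l₁ l₂ ≠ KT x A K m b b' (uu z' l₂ - uu z l₁) →
        ∃ T : ℝ, (T = 0 ∨ T = A) ∧ (|a1 z z' l₁ l₂ - T| ≤ Y ∨ |a2 z z' l₁ l₂ - T| ≤ Y))) :
    ‖ERR_S x A f₁ f₂ z z' - ERR_S' x A K m f₁ f₂ z z'‖ ≤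
      M ^ 2 * (x * (2 * (4 * Y * (dl z z').natAbs / N + 2))) := by
  have hM : 0 ≤ M := (norm_nonneg _).trans (h1 0)
  obtain ⟨-, -, c3⟩ := hCNI x N A hx hN z hz z' hz' hd
  have e0 : ERR_S x A f₁ f₂ z z' - ERR_S' x A K m f₁ f₂ z z' =
      ∑ b ∈ range K, ∑ b' ∈ range K, ∑ l₁ ∈ bl x K b, ∑ l₂ ∈ bl x K b',
        f₁ l₁ * f₂ l₂ * ((Ind A z z' l₁ l₂ - KT x A K m b b' (uu z' l₂ - uu z l₁) : ℝ) : ℂ) := by
    unfold ERR_S ERR_S'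
    rw [← ERR_blk hWND x K hx hK]
    simp only [← Finset.sum_sub_distrib]
    refine Finset.sum_congr rfl fun b _ => Finset.sum_congr rfl fun b' _ =>
      Finset.sum_congr rfl fun l₁ _ => Finset.sum_congr rfl fun l₂ _ => ?_
    push_cast
    ring
  set Z : ℤ → ℤ → ℝ := fun l₁ l₂ =>
    (if |a1 z z' l₁ l₂ - 0| ≤ Y ∨ |a2 z z' l₁ l₂ - 0| ≤ Y then 1 else 0) +
    (if |a1 z z' l₁ l₂ - A| ≤ Y ∨ |a2 z z' l₁ l₂ - A| ≤ Y then 1 else 0) with hZdef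
  have hZ0 : ∀ l₁ l₂, 0 ≤ Z l₁ l₂ := by
    intro l₁ l₂
    simp only [hZdef]
    split_ifs <;> norm_num
  have hpt : ∀ b ∈ range K, ∀ b' ∈ range K, ∀ l₁ ∈ bl x K b, ∀ l₂ ∈ bl x K b',
      ‖f₁ l₁ * f₂ l₂ * ((Ind A z z' l₁ l₂ - KT x A K m b b' (uu z' l₂ - uu z l₁) : ℝ) : ℂ)‖ ≤ M ^ 2 * Z l₁ l₂ := by
    intro b hb b' hb' l₁ hl₁ l₂ hl₂
    obtain ⟨g1, g2⟩ := hZ b (Finset.mem_range.1 hb) b' (Finset.mem_range.1 hb') l₁ hl₁ l₂ hl₂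
    rw [norm_mul, norm_mul, Complex.norm_real, Real.norm_eq_abs]
    have e1 : ‖f₁ l₁‖ * ‖f₂ l₂‖ ≤ M ^ 2 := by
      rw [sq]
      exact mul_le_mul (h1 _) (h2 _) (norm_nonneg _) hM
    refine mul_le_mul e1 ?_ (abs_nonneg _) (sq_nonneg M)
    by_cases h : Ind A z z' l₁ l₂ = KT x A K m b b' (uu z' l₂ - uu z l₁)
    · rw [h, sub_self, abs_zero]
      exact hZ0 _ _
    · refine g1.trans ?_
      obtain ⟨T, hT | hT, hT2⟩ := g2 h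
      · simp only [hZdef]
        rw [hT] at hT2
        rw [if_pos hT2]
        split_ifs <;> norm_num
      · simp only [hZdef]
        rw [hT] at hT2
        rw [if_pos hT2]
        split_ifs <;> norm_num
  rw [e0]
  have e2 : ‖∑ b ∈ range K, ∑ b' ∈ range K, ∑ l₁ ∈ bl x K b, ∑ l₂ ∈ bl x K b',
        f₁ l₁ * f₂ l₂ * ((Ind A z z' l₁ l₂ - KT x A K m b b' (uu z' l₂ - uu z l₁) : ℝ) : ℂ)‖ ≤
      ∑ b ∈ range K, ∑ b' ∈ range K, ∑ l₁ ∈ bl x K b, ∑ l₂ ∈ bl x K b', M ^ 2 * Z l₁ l₂ := by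
    refine (norm_sum_le _ _).trans (Finset.sum_le_sum fun b hb => ?_)
    refine (norm_sum_le _ _).trans (Finset.sum_le_sum fun b' hb' => ?_)
    refine (norm_sum_le _ _).trans (Finset.sum_le_sum fun l₁ hl₁ => ?_)
    exact (norm_sum_le _ _).trans (Finset.sum_le_sum fun l₂ hl₂ => hpt b hb b' hb' l₁ hl₁ l₂ hl₂)
  refine e2.trans ?_
  rw [ERR_blkR hWND x K hx hK (fun l₁ l₂ => M ^ 2 * Z l₁ l₂)]
  have e3 : ∀ l₁ ∈ Ioc (x : ℤ) (2 * x), ∑ l₂ ∈ Ioc (x : ℤ) (2 * x), M ^ 2 * Z l₁ l₂ ≤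
      M ^ 2 * (2 * (4 * Y * (dl z z').natAbs / N + 2)) := by
    intro l₁ _
    rw [← Finset.mul_sum]
    refine mul_le_mul_of_nonneg_left ?_ (sq_nonneg M)
    simp only [hZdef]
    rw [Finset.sum_add_distrib, Finset.sum_boole, Finset.sum_boole]
    have k1 := c3 hs l₁ 0 Y hY
    have k2 := c3 hs l₁ A Y hY
    linarith
  refine (Finset.sum_le_sum e3).trans ?_
  rw [Finset.sum_const, Int.card_Ioc]
  have h2 : (2 * (x : ℤ) - x).toNat = x := by omega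
  rw [h2, nsmul_eq_mul]
  apply le_of_eq
  ring

/-- the prefactor -/
private lemma ERR_pre (Mβ : ℝ) (β : ℤ × ℤ → ℝ) (Ω : ℤ × ℤ → ℤ × ℤ → ℂ) (hβ : ∀ z, |β z| ≤ Mβ)
    (hΩ : ∀ z z', ‖Ω z z'‖ ≤ 1) (z z' : ℤ × ℤ) : ‖(β z : ℂ) * β z' * Ω z z'‖ ≤ Mβ ^ 2 := by
  have hM : 0 ≤ Mβ := (abs_nonneg _).trans (hβ 0)
  rw [norm_mul, norm_mul, Complex.norm_real, Complex.norm_real, Real.norm_eq_abs, Real.norm_eq_abs]
  calc |β z| * |β z'| * ‖Ω z z'‖ ≤ Mβ * Mβ * 1 :=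
        mul_le_mul (mul_le_mul (hβ z) (hβ z') (abs_nonneg _) hM) (hΩ z z') (norm_nonneg _) (by positivity)
    _ = Mβ ^ 2 := by ring

/-- the difference for one pair, real numbers -/
private lemma ERR_num (CK CZ M x N A K K₁ D kp S SD Y : ℝ) (hCK : 0 < CK) (hCZ : 0 < CZ) (hx : 1 ≤ x) (hN : 1 ≤ N)
    (hA : 1 ≤ A) (hK : 1 ≤ K) (hK₁ : 1 ≤ K₁) (hxA : x ≤ A ^ 2) (hS0 : 0 ≤ S) (hSD0 : 0 ≤ SD)
    (hY : Y = CZ * (A * K₁ / K)) (hkp0 : 0 ≤ kp)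
    (h1 : |1 / D - kp| ≤ CK * (K₁ ^ 2 * x / (K * A * N))) (h2 : kp ≤ CK * (K₁ * x / (A * N)))
    (h3 : D ≤ CK * (N * A / x)) (hS : S ≤ M ^ 2 * (x * (A * D / N + 1)))
    (hSD : SD ≤ M ^ 2 * (x * (2 * (4 * Y * D / N + 2)))) :
    |1 / D - kp| * S + kp * SD ≤ (CK * (CK + 1) + 8 * CZ * CK ^ 2 + 4 * CK) *
      (M ^ 2 * (K₁ ^ 2 * x * A / (K * N) + K₁ * x ^ 2 / (A * N))) := by
  have x0 : 0 < x := by linarith
  have N0 : 0 < N := by linarith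
  have A0 : 0 < A := by linarith
  have K0 : 0 < K := by linarith
  have K10 : 0 < K₁ := by linarith
  have Y0 : 0 ≤ Y := by
    rw [hY]
    positivity
  have s1 : x * (A * D / N + 1) ≤ (CK + 1) * A ^ 2 := by
    have e1 : A * D / N ≤ A * (CK * (N * A / x)) / N := by gcongr
    have e2 : A * (CK * (N * A / x)) / N = CK * A ^ 2 / x := by field_simp
    rw [e2] at e1
    have e3 : x * (A * D / N + 1) ≤ x * (CK * A ^ 2 / x + 1) := by gcongr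
    have e4 : x * (CK * A ^ 2 / x + 1) = CK * A ^ 2 + x := by field_simp
    rw [e4] at e3
    linarith
  have s2 : x * (2 * (4 * Y * D / N + 2)) ≤ 8 * CZ * CK * (A ^ 2 * K₁ / K) + 4 * x := by
    have e1 : 4 * Y * D / N ≤ 4 * Y * (CK * (N * A / x)) / N := by gcongr
    have e2 : x * (2 * (4 * Y * D / N + 2)) ≤ x * (2 * (4 * Y * (CK * (N * A / x)) / N + 2)) := by gcongr
    have e3 : x * (2 * (4 * Y * (CK * (N * A / x)) / N + 2)) = 8 * CZ * CK * (A ^ 2 * K₁ / K) + 4 * x := by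
      rw [hY]
      field_simp
      ring
    rw [e3] at e2
    exact e2
  have t1 : S ≤ M ^ 2 * ((CK + 1) * A ^ 2) := hS.trans (mul_le_mul_of_nonneg_left s1 (sq_nonneg M))
  have t2 : SD ≤ M ^ 2 * (8 * CZ * CK * (A ^ 2 * K₁ / K) + 4 * x) :=
    hSD.trans (mul_le_mul_of_nonneg_left s2 (sq_nonneg M))
  have p1 : |1 / D - kp| * S ≤ (CK * (K₁ ^ 2 * x / (K * A * N))) * (M ^ 2 * ((CK + 1) * A ^ 2)) :=
    mul_le_mul h1 t1 hS0 (by positivity)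
  have p2 : kp * SD ≤ (CK * (K₁ * x / (A * N))) * (M ^ 2 * (8 * CZ * CK * (A ^ 2 * K₁ / K) + 4 * x)) :=
    mul_le_mul h2 t2 hSD0 (by positivity)
  have i1 : (CK * (K₁ ^ 2 * x / (K * A * N))) * (M ^ 2 * ((CK + 1) * A ^ 2)) =
      CK * (CK + 1) * (M ^ 2 * (K₁ ^ 2 * x * A / (K * N))) := by
    field_simp
  have i2 : (CK * (K₁ * x / (A * N))) * (M ^ 2 * (8 * CZ * CK * (A ^ 2 * K₁ / K) + 4 * x)) =
      8 * CZ * CK ^ 2 * (M ^ 2 * (K₁ ^ 2 * x * A / (K * N))) + 4 * CK * (M ^ 2 * (K₁ * x ^ 2 / (A * N))) := by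
    field_simp
  rw [i1] at p1
  rw [i2] at p2
  have q1 : 0 ≤ M ^ 2 * (K₁ ^ 2 * x * A / (K * N)) := by positivity
  have q2 : 0 ≤ M ^ 2 * (K₁ * x ^ 2 / (A * N)) := by positivity
  have q3 : 0 ≤ CK * (CK + 1) * (M ^ 2 * (K₁ * x ^ 2 / (A * N))) := by positivity
  have q4 : 0 ≤ 8 * CZ * CK ^ 2 * (M ^ 2 * (K₁ * x ^ 2 / (A * N))) := by positivity
  have q5 : 0 ≤ 4 * CK * (M ^ 2 * (K₁ ^ 2 * x * A / (K * N))) := by positivity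
  calc |1 / D - kp| * S + kp * SD ≤ CK * (CK + 1) * (M ^ 2 * (K₁ ^ 2 * x * A / (K * N))) +
        (8 * CZ * CK ^ 2 * (M ^ 2 * (K₁ ^ 2 * x * A / (K * N))) + 4 * CK * (M ^ 2 * (K₁ * x ^ 2 / (A * N)))) :=
        add_le_add p1 p2
    _ ≤ (CK * (CK + 1) + 8 * CZ * CK ^ 2 + 4 * CK) *
      (M ^ 2 * (K₁ ^ 2 * x * A / (K * N) + K₁ * x ^ 2 / (A * N))) := by
        have e : (CK * (CK + 1) + 8 * CZ * CK ^ 2 + 4 * CK) *
            (M ^ 2 * (K₁ ^ 2 * x * A / (K * N) + K₁ * x ^ 2 / (A * N))) =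
          CK * (CK + 1) * (M ^ 2 * (K₁ ^ 2 * x * A / (K * N))) +
          (8 * CZ * CK ^ 2 * (M ^ 2 * (K₁ ^ 2 * x * A / (K * N))) + 4 * CK * (M ^ 2 * (K₁ * x ^ 2 / (A * N)))) +
          (CK * (CK + 1) * (M ^ 2 * (K₁ * x ^ 2 / (A * N))) + 8 * CZ * CK ^ 2 * (M ^ 2 * (K₁ * x ^ 2 / (A * N))) +
            4 * CK * (M ^ 2 * (K₁ ^ 2 * x * A / (K * N)))) := by ring
        rw [e]
        linarith

/-- the pairs with small `dl`, summed -/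
private lemma ERR_sumQ (CD : ℝ) (hPAD : ∀ N D : ℕ, 1 ≤ N → (#{p ∈ ZD N ×ˢ ZD N | (dl p.1 p.2).natAbs = D} : ℝ) ≤ CD * N)
    (N D₂ : ℕ) (hN : 1 ≤ N) (a x : ℝ) (ha : 0 ≤ a) (hx : 0 ≤ x) :
    ∑ p ∈ (ZD N ×ˢ ZD N).filter (fun p => (dl p.1 p.2).natAbs ∈ Icc 1 D₂), (a + x / (dl p.1 p.2).natAbs) ≤
      CD * N * (D₂ * a + x * (1 + Real.log D₂)) := by
  have h1 : ∑ p ∈ (ZD N ×ˢ ZD N).filter (fun p => (dl p.1 p.2).natAbs ∈ Icc 1 D₂), (a + x / (dl p.1 p.2).natAbs) =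
      ∑ D ∈ Icc 1 D₂, ∑ p ∈ ((ZD N ×ˢ ZD N).filter (fun p => (dl p.1 p.2).natAbs ∈ Icc 1 D₂)).filter
        (fun p => (dl p.1 p.2).natAbs = D), (a + x / (dl p.1 p.2).natAbs) :=
    (Finset.sum_fiberwise_of_maps_to (fun p hp => (Finset.mem_filter.1 hp).2) _).symm
  rw [h1]
  have CD0 : 0 ≤ CD := by
    have h := hPAD 1 0 le_rfl
    have h' : (0 : ℝ) ≤ CD * (1 : ℕ) := le_trans (Nat.cast_nonneg _) h
    simpa using h'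
  have h2 : ∀ D ∈ Icc 1 D₂, ∑ p ∈ ((ZD N ×ˢ ZD N).filter (fun p => (dl p.1 p.2).natAbs ∈ Icc 1 D₂)).filter
        (fun p => (dl p.1 p.2).natAbs = D), (a + x / (dl p.1 p.2).natAbs) ≤ CD * N * (a + x / D) := by
    intro D _
    have h3 : ∑ p ∈ ((ZD N ×ˢ ZD N).filter (fun p => (dl p.1 p.2).natAbs ∈ Icc 1 D₂)).filter
        (fun p => (dl p.1 p.2).natAbs = D), (a + x / (dl p.1 p.2).natAbs) =
        ∑ _p ∈ ((ZD N ×ˢ ZD N).filter (fun p => (dl p.1 p.2).natAbs ∈ Icc 1 D₂)).filter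
        (fun p => (dl p.1 p.2).natAbs = D), (a + x / (D : ℝ)) :=
      Finset.sum_congr rfl fun p hp => by rw [(Finset.mem_filter.1 hp).2]
    rw [h3, Finset.sum_const, nsmul_eq_mul]
    refine mul_le_mul_of_nonneg_right ?_ (by positivity)
    refine le_trans ?_ (hPAD N D hN)
    exact_mod_cast Finset.card_le_card fun p hp => by
      rw [Finset.mem_filter, Finset.mem_filter] at hp
      exact Finset.mem_filter.2 ⟨hp.1.1, hp.2⟩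
  refine (Finset.sum_le_sum h2).trans ?_
  rw [← Finset.mul_sum, Finset.sum_add_distrib, Finset.sum_const, Nat.card_Icc, Nat.add_sub_cancel, nsmul_eq_mul]
  refine mul_le_mul_of_nonneg_left ?_ (by positivity)
  refine add_le_add le_rfl ?_
  have h4 : ∑ D ∈ Icc 1 D₂, x / (D : ℝ) = x * ∑ D ∈ Icc 1 D₂, ((D : ℝ))⁻¹ := by
    rw [Finset.mul_sum]
    exact Finset.sum_congr rfl fun D _ => by rw [div_eq_mul_inv]
  rw [h4]
  refine mul_le_mul_of_nonneg_left ?_ hx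
  have h5 := harmonic_le_one_add_log D₂
  rw [harmonic_eq_sum_Icc] at h5
  push_cast at h5
  exact h5

/-- the numbers in part (b) -/
private lemma ERR_q (CD C₂ M Mβ x N A K₁ D₂ S L : ℝ) (hCD : 0 < CD) (hC₂ : 1 ≤ C₂) (hx : 1 ≤ x) (hN : 1 ≤ N)
    (hA : 1 ≤ A) (hK₁ : 1 ≤ K₁) (hD₂ : 0 ≤ D₂) (hL0 : 0 ≤ L) (hL : L = Real.log (N * A))
    (h1 : S ≤ CD * N * (D₂ * (x * A / N) + x * (1 + Real.log D₂)))
    (h2 : D₂ ≤ C₂ * (N * A / (x * K₁))) :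
    Mβ ^ 2 * M ^ 2 * S ≤ CD * (C₂ + (1 + Real.log C₂)) * (M ^ 2 * Mβ ^ 2 *
      (N * A ^ 2 * (1 / K₁) + K₁ * N * x * (1 + L))) := by
  have x0 : 0 < x := by linarith
  have N0 : 0 < N := by linarith
  have A0 : 0 < A := by linarith
  have K10 : 0 < K₁ := by linarith
  have C20 : 0 < C₂ := by linarith
  have hlC₂ : 0 ≤ Real.log C₂ := Real.log_nonneg hC₂
  have u1 : Real.log D₂ ≤ Real.log C₂ + L := by
    rcases hD₂.eq_or_lt with h0 | h0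
    · rw [← h0, Real.log_zero]
      positivity
    · rw [hL, ← Real.log_mul (by positivity) (by positivity)]
      refine Real.log_le_log h0 (h2.trans ?_)
      refine mul_le_mul_of_nonneg_left ?_ (by positivity)
      refine div_le_self (by positivity) ?_
      nlinarith
  have s4 : 1 + Real.log D₂ ≤ (1 + Real.log C₂) * (1 + L) := by
    nlinarith [mul_nonneg hlC₂ hL0]
  have s5 : CD * N * (D₂ * (x * A / N) + x * (1 + Real.log D₂)) ≤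
      CD * N * (C₂ * (N * A / (x * K₁)) * (x * A / N) + x * ((1 + Real.log C₂) * (1 + L))) := by gcongr
  have s6 : CD * N * (C₂ * (N * A / (x * K₁)) * (x * A / N) + x * ((1 + Real.log C₂) * (1 + L))) =
      CD * (C₂ * (N * A ^ 2 * (1 / K₁)) + (1 + Real.log C₂) * (N * x * (1 + L))) := by
    field_simp
  rw [s6] at s5
  have s7 : N * x * (1 + L) ≤ K₁ * N * x * (1 + L) := by
    have u2 : N * x ≤ K₁ * N * x := by
      have : N * x * 1 ≤ N * x * K₁ := mul_le_mul_of_nonneg_left hK₁ (by positivity)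
      nlinarith
    exact mul_le_mul_of_nonneg_right u2 (by positivity)
  have P1n : 0 ≤ N * A ^ 2 * (1 / K₁) := by positivity
  have P2n : 0 ≤ K₁ * N * x * (1 + L) := by positivity
  have v1 : (1 + Real.log C₂) * (N * x * (1 + L)) ≤ (1 + Real.log C₂) * (K₁ * N * x * (1 + L)) :=
    mul_le_mul_of_nonneg_left s7 (by positivity)
  have v2 : 0 ≤ C₂ * (K₁ * N * x * (1 + L)) := by positivity
  have v3 : 0 ≤ (1 + Real.log C₂) * (N * A ^ 2 * (1 / K₁)) := by positivity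
  have v4 : C₂ * (N * A ^ 2 * (1 / K₁)) + (1 + Real.log C₂) * (N * x * (1 + L)) ≤
      (C₂ + (1 + Real.log C₂)) * (N * A ^ 2 * (1 / K₁) + K₁ * N * x * (1 + L)) := by
    have e : (C₂ + (1 + Real.log C₂)) * (N * A ^ 2 * (1 / K₁) + K₁ * N * x * (1 + L)) =
      C₂ * (N * A ^ 2 * (1 / K₁)) + C₂ * (K₁ * N * x * (1 + L)) + (1 + Real.log C₂) * (N * A ^ 2 * (1 / K₁)) +
        (1 + Real.log C₂) * (K₁ * N * x * (1 + L)) := by ring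
    rw [e]
    linarith
  have s8 : S ≤ CD * ((C₂ + (1 + Real.log C₂)) * (N * A ^ 2 * (1 / K₁) + K₁ * N * x * (1 + L))) :=
    (h1.trans s5).trans (mul_le_mul_of_nonneg_left v4 hCD.le)
  calc Mβ ^ 2 * M ^ 2 * S ≤ Mβ ^ 2 * M ^ 2 *
        (CD * ((C₂ + (1 + Real.log C₂)) * (N * A ^ 2 * (1 / K₁) + K₁ * N * x * (1 + L)))) :=
        mul_le_mul_of_nonneg_left s8 (by positivity)
    _ = _ := by ring

/-- the final computation -/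
private lemma ERR_fin (Ca Cb M Mβ N A K K₁ x L : ℝ) (hCa : 0 ≤ Ca) (hCb : 0 ≤ Cb) (hN : 0 < N) (hA : 0 < A)
    (hK : 0 < K) (hK₁ : 0 < K₁) (hx : 0 < x) (hL : 0 ≤ L) :
    Ca * (M ^ 2 * Mβ ^ 2 * (N * A ^ 2 * (K₁ ^ 2 / K) + K₁ * N * x)) +
      Cb * (M ^ 2 * Mβ ^ 2 * (N * A ^ 2 * (1 / K₁) + K₁ * N * x * (1 + L))) +
      Cb * (M ^ 2 * Mβ ^ 2 * (N * A ^ 2 * (1 / K₁) + K₁ * N * x * (1 + L))) ≤
    (Ca + 2 * Cb) * M ^ 2 * Mβ ^ 2 * (N * A ^ 2 * (K₁ ^ 2 / K + 1 / K₁) + K₁ * N * x * (1 + L)) := by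
  have MM0 : 0 ≤ M ^ 2 * Mβ ^ 2 := by positivity
  have p1n : 0 ≤ N * A ^ 2 * (K₁ ^ 2 / K) := by positivity
  have p2n : 0 ≤ N * A ^ 2 * (1 / K₁) := by positivity
  have p3n : 0 ≤ K₁ * N * x * L := by positivity
  have q1 : 0 ≤ Ca * (M ^ 2 * Mβ ^ 2 * (N * A ^ 2 * (1 / K₁))) := by positivity
  have q2 : 0 ≤ Ca * (M ^ 2 * Mβ ^ 2 * (K₁ * N * x * L)) := by positivity
  have q3 : 0 ≤ Cb * (M ^ 2 * Mβ ^ 2 * (N * A ^ 2 * (K₁ ^ 2 / K))) := by positivity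
  have e : (Ca + 2 * Cb) * M ^ 2 * Mβ ^ 2 * (N * A ^ 2 * (K₁ ^ 2 / K + 1 / K₁) + K₁ * N * x * (1 + L)) =
      Ca * (M ^ 2 * Mβ ^ 2 * (N * A ^ 2 * (K₁ ^ 2 / K) + K₁ * N * x)) +
      Cb * (M ^ 2 * Mβ ^ 2 * (N * A ^ 2 * (1 / K₁) + K₁ * N * x * (1 + L))) +
      Cb * (M ^ 2 * Mβ ^ 2 * (N * A ^ 2 * (1 / K₁) + K₁ * N * x * (1 + L))) +
      (Ca * (M ^ 2 * Mβ ^ 2 * (N * A ^ 2 * (1 / K₁))) + Ca * (M ^ 2 * Mβ ^ 2 * (K₁ * N * x * L)) +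
        2 * (Cb * (M ^ 2 * Mβ ^ 2 * (N * A ^ 2 * (K₁ ^ 2 / K))))) := by ring
  rw [e]
  linarith

theorem ERR (hRGV : RGV_stmt) (hCNI : CNI_stmt) (hKRN : KRN_stmt) (hPRM : PRM_stmt) (hZON : ZON_stmt)
    (hWND : WND_stmt) (hPAI : PAI_stmt) (hPAD : PAD_stmt) : ERR_stmt := by
  obtain ⟨CK, hCK, hKRN⟩ := hKRN
  obtain ⟨CR₀, hCR, hPRM⟩ := hPRM
  obtain ⟨CZ, hCZ, hZON⟩ := hZON
  obtain ⟨CP, hCP, hPAI⟩ := hPAI
  obtain ⟨CD, hCD, hPAD⟩ := hPAD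
  set C₁ : ℝ := CK * (CK + 1) + 8 * CZ * CK ^ 2 + 4 * CK with hC₁
  set C₂ : ℝ := CR₀ + 1 with hC₂
  have hC₁0 : 0 < C₁ := by positivity
  have hC₂1 : 1 ≤ C₂ := by linarith
  have hlC₂ : 0 ≤ Real.log C₂ := Real.log_nonneg hC₂1
  refine ⟨C₁ * (CP * (CK + 1)) + 2 * (CD * (C₂ + (1 + Real.log C₂))), by positivity, ?_⟩
  intro x N A K K₁ hx hN hA hAx hK₁ hKK hxA hxN M Mβ β Ω f₁ f₂ hβ hΩ hf₁ hf₂ θ
  have hK : 1 ≤ K := by omega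
  have hM : 0 ≤ M := (norm_nonneg _).trans (hf₁ 0)
  have hMβ : 0 ≤ Mβ := (abs_nonneg _).trans (hβ 0)
  have xr : (1 : ℝ) ≤ x := by exact_mod_cast hx
  have Nr : (1 : ℝ) ≤ N := by exact_mod_cast hN
  have Ar : (1 : ℝ) ≤ A := by exact_mod_cast hA
  have Kr : (1 : ℝ) ≤ K := by exact_mod_cast hK
  have K1r : (1 : ℝ) ≤ K₁ := by exact_mod_cast hK₁
  have x0 : (0 : ℝ) < x := by linarith
  have N0 : (0 : ℝ) < N := by linarith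
  have A0 : (0 : ℝ) < A := by linarith
  have K0 : (0 : ℝ) < K := by linarith
  have K10 : (0 : ℝ) < K₁ := by linarith
  have hxAr : (x : ℝ) ≤ (A : ℝ) ^ 2 := by exact_mod_cast hxA
  have hxNr : (x : ℝ) ≤ N * A := by exact_mod_cast hxN
  -- the two terms
  set m : (ℤ × ℤ) × (ℤ × ℤ) → ℤ := fun p => kk (hh x A K) θ p.1 - kk (hh x A K) θ p.2 with hm
  set t : (ℤ × ℤ) × (ℤ × ℤ) → ℂ := fun p => (β p.1 : ℂ) * β p.2 * Ω p.1 p.2 * (1 / ((dl p.1 p.2).natAbs : ℂ)) *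
    ERR_S x A f₁ f₂ p.1 p.2 with ht
  set t' : (ℤ × ℤ) × (ℤ × ℤ) → ℂ := fun p => (β p.1 : ℂ) * β p.2 * Ω p.1 p.2 * (kap8 x A K (m p) p.1 p.2 : ℂ) *
    ERR_S' x A K (m p) f₁ f₂ p.1 p.2 with ht'
  have eCR : CR x N A K₁ β Ω f₁ f₂ = ∑ p ∈ Pr x N A K₁, t p := rfl
  have eMM : MM x N A K K₁ θ β Ω f₁ f₂ = ∑ p ∈ PW x N A K K₁ θ, t' p := rfl
  have hPrZ : Pr x N A K₁ ⊆ ZD N ×ˢ ZD N := Finset.filter_subset _ _
  have hPWZ : PW x N A K K₁ θ ⊆ ZD N ×ˢ ZD N := by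
    intro p hp
    unfold PW at hp
    exact (Finset.mem_filter.1 hp).1
  -- the decomposition
  have dec : CR x N A K₁ β Ω f₁ f₂ - MM x N A K K₁ θ β Ω f₁ f₂ =
      ∑ p ∈ PW x N A K K₁ θ, (t p - t' p) + ∑ p ∈ Pr x N A K₁ \ PW x N A K K₁ θ, t p -
        ∑ p ∈ PW x N A K K₁ θ \ Pr x N A K₁, t p := by
    rw [eCR, eMM, Finset.sum_sub_distrib]
    have h1 := Finset.sum_inter_add_sum_sdiff (Pr x N A K₁) (PW x N A K K₁ θ) t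
    have h2 := Finset.sum_inter_add_sum_sdiff (PW x N A K K₁ θ) (Pr x N A K₁) t
    rw [Finset.inter_comm] at h2
    rw [← h1, ← h2]
    ring
  -- part (a): one pair
  set W : ℝ := Mβ ^ 2 * (C₁ * (M ^ 2 * ((K₁ : ℝ) ^ 2 * x * A / (K * N) + K₁ * (x : ℝ) ^ 2 / (A * N)))) with hW
  have hWn : 0 ≤ W := by positivity
  have ha : ∀ p ∈ PW x N A K K₁ θ, ‖t p - t' p‖ ≤ W := by
    intro p hp
    obtain ⟨q1, -, -, -, -, -, -, q8, q9, q10⟩ := hKRN x N A K K₁ hx hN hA hAx hK₁ hKK θ p hp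
    have hz := hZON x N A K K₁ hx hN hA hAx hK₁ hKK θ p hp
    have hp2 := hp
    unfold PW at hp2
    rw [Finset.mem_filter, Finset.mem_product] at hp2
    obtain ⟨⟨hz1, hz2⟩, hs, -, -⟩ := hp2
    have b1 := ERR_bS hCNI x N A hx hN M f₁ f₂ hf₁ hf₂ p.1 p.2 hz1 hz2 q1
    have b2 := ERR_bD hCNI hWND x N A K hx hN hK M (CZ * (A * K₁ / K)) (by positivity) (m p) f₁ f₂ hf₁ hf₂
      p.1 p.2 hz1 hz2 q1 hs hz
    have kp0 : 0 ≤ kap8 x A K (m p) p.1 p.2 := by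
      unfold kap8
      positivity
    have e1 : t p - t' p = ((β p.1 : ℂ) * β p.2 * Ω p.1 p.2) *
        (((1 / ((dl p.1 p.2).natAbs : ℝ) - kap8 x A K (m p) p.1 p.2 : ℝ) : ℂ) * ERR_S x A f₁ f₂ p.1 p.2 +
          (kap8 x A K (m p) p.1 p.2 : ℂ) * (ERR_S x A f₁ f₂ p.1 p.2 - ERR_S' x A K (m p) f₁ f₂ p.1 p.2)) := by
      simp only [ht, ht']
      push_cast
      ring
    rw [e1, norm_mul]
    refine mul_le_mul (ERR_pre Mβ β Ω hβ hΩ p.1 p.2) ?_ (norm_nonneg _) (by positivity)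
    refine (norm_add_le _ _).trans ?_
    rw [norm_mul, norm_mul, Complex.norm_real, Complex.norm_real, Real.norm_eq_abs, Real.norm_eq_abs,
      abs_of_nonneg kp0]
    exact ERR_num CK CZ M x N A K K₁ _ _ _ _ _ hCK hCZ xr Nr Ar Kr K1r hxAr (norm_nonneg _) (norm_nonneg _)
      rfl kp0 q8 q9 q10 b1 b2
  -- the number of pairs
  have hcard : (#(PW x N A K K₁ θ) : ℝ) ≤ CP * (CK + 1) * ((N : ℝ) ^ 2 * A / x) := by
    have c1 := hPAI N ⌊CK * (N * A / x : ℝ)⌋₊ hN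
    have c2 : (#(PW x N A K K₁ θ) : ℝ) ≤ #{p ∈ ZD N ×ˢ ZD N | |dl p.1 p.2| ≤ (⌊CK * (N * A / x : ℝ)⌋₊ : ℤ)} := by
      exact_mod_cast Finset.card_le_card fun p hp => by
        refine Finset.mem_filter.2 ⟨hPWZ hp, ?_⟩
        obtain ⟨-, -, -, -, -, -, -, -, -, q10⟩ := hKRN x N A K K₁ hx hN hA hAx hK₁ hKK θ p hp
        have h := Nat.le_floor q10
        rw [Int.abs_eq_natAbs]
        exact_mod_cast h
    refine c2.trans (c1.trans ?_)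
    have c3 : (⌊CK * (N * A / x : ℝ)⌋₊ : ℝ) ≤ CK * (N * A / x) := Nat.floor_le (by positivity)
    have c4 : (1 : ℝ) ≤ N * A / x := by
      rw [le_div_iff₀ x0]
      linarith
    have c5 : (⌊CK * (N * A / x : ℝ)⌋₊ : ℝ) + 1 ≤ (CK + 1) * (N * A / x) := by nlinarith
    calc CP * N * ((⌊CK * (N * A / x : ℝ)⌋₊ : ℝ) + 1) ≤ CP * N * ((CK + 1) * (N * A / x)) := by gcongr
      _ = CP * (CK + 1) * ((N : ℝ) ^ 2 * A / x) := by ring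
  have hA1 : ‖∑ p ∈ PW x N A K K₁ θ, (t p - t' p)‖ ≤
      C₁ * (CP * (CK + 1)) * (M ^ 2 * Mβ ^ 2 * (N * (A : ℝ) ^ 2 * ((K₁ : ℝ) ^ 2 / K) + K₁ * N * x)) := by
    refine (norm_sum_le _ _).trans ((Finset.sum_le_sum ha).trans ?_)
    rw [Finset.sum_const, nsmul_eq_mul]
    refine (mul_le_mul_of_nonneg_right hcard hWn).trans (le_of_eq ?_)
    rw [hW]
    field_simp
  -- part (b)
  set D₂ : ℕ := ⌊C₂ * (N * A / (x * K₁) : ℝ)⌋₊ with hD₂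
  set Q := (ZD N ×ˢ ZD N).filter (fun p => (dl p.1 p.2).natAbs ∈ Icc 1 D₂) with hQ
  set bd : (ℤ × ℤ) × (ℤ × ℤ) → ℝ := fun p => Mβ ^ 2 * M ^ 2 * ((x : ℝ) * A / N + x / (dl p.1 p.2).natAbs) with hbd
  have hbd0 : ∀ p, 0 ≤ bd p := by
    intro p
    simp only [hbd]
    positivity
  have hQt : ∀ p ∈ Q, ‖t p‖ ≤ bd p := by
    intro p hp
    rw [hQ, Finset.mem_filter, Finset.mem_product, Finset.mem_Icc] at hp
    obtain ⟨⟨hz1, hz2⟩, hd1, -⟩ := hp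
    have hd : dl p.1 p.2 ≠ 0 := by
      intro h
      rw [h] at hd1
      simp at hd1
    have Dr : (1 : ℝ) ≤ ((dl p.1 p.2).natAbs : ℝ) := by exact_mod_cast hd1
    have D0 : (0 : ℝ) < ((dl p.1 p.2).natAbs : ℝ) := by linarith
    have b1 := ERR_bS hCNI x N A hx hN M f₁ f₂ hf₁ hf₂ p.1 p.2 hz1 hz2 hd
    have e1 : t p = ((β p.1 : ℂ) * β p.2 * Ω p.1 p.2) *
        (((1 / ((dl p.1 p.2).natAbs : ℝ) : ℝ) : ℂ) * ERR_S x A f₁ f₂ p.1 p.2) := by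
      simp only [ht]
      push_cast
      ring
    rw [e1, norm_mul ((β p.1 : ℂ) * β p.2 * Ω p.1 p.2), norm_mul (((1 / ((dl p.1 p.2).natAbs : ℝ) : ℝ) : ℂ)),
      Complex.norm_real, Real.norm_eq_abs, abs_of_nonneg (by positivity)]
    calc ‖(β p.1 : ℂ) * β p.2 * Ω p.1 p.2‖ * (1 / ((dl p.1 p.2).natAbs : ℝ) * ‖ERR_S x A f₁ f₂ p.1 p.2‖)
        ≤ Mβ ^ 2 * (1 / ((dl p.1 p.2).natAbs : ℝ) *
          (M ^ 2 * (x * (A * (dl p.1 p.2).natAbs / N + 1)))) := by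
          refine mul_le_mul (ERR_pre Mβ β Ω hβ hΩ p.1 p.2) ?_ (by positivity) (by positivity)
          exact mul_le_mul_of_nonneg_left b1 (by positivity)
      _ = bd p := by
          simp only [hbd]
          field_simp
  have hNA1 : (1 : ℝ) ≤ N * A := by nlinarith
  have hLNA : 0 ≤ Real.log ((N * A : ℕ) : ℝ) := Real.log_nonneg (by push_cast; exact hNA1)
  have hQsum : ∑ p ∈ Q, bd p ≤ CD * (C₂ + (1 + Real.log C₂)) * (M ^ 2 * Mβ ^ 2 *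
      (N * (A : ℝ) ^ 2 * (1 / K₁) + K₁ * N * x * (1 + Real.log (N * A : ℕ)))) := by
    have s1 := ERR_sumQ CD hPAD N D₂ hN ((x : ℝ) * A / N) x (by positivity) x0.le
    have s2 : ∑ p ∈ Q, bd p = Mβ ^ 2 * M ^ 2 * ∑ p ∈ Q, ((x : ℝ) * A / N + x / (dl p.1 p.2).natAbs) := by
      rw [Finset.mul_sum]
    rw [s2]
    have s3 : (D₂ : ℝ) ≤ C₂ * (N * A / (x * K₁)) := Nat.floor_le (by positivity)
    exact ERR_q CD C₂ M Mβ x N A K₁ D₂ _ _ hCD hC₂1 xr Nr Ar K1r (Nat.cast_nonneg _) hLNA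
      (by push_cast; rfl) s1 s3
  -- a set of pairs on which `t` vanishes outside `Q`
  have hgen : ∀ S : Finset ((ℤ × ℤ) × (ℤ × ℤ)), (∀ p ∈ S, t p ≠ 0 → p ∈ Q) → ‖∑ p ∈ S, t p‖ ≤ ∑ p ∈ Q, bd p := by
    intro S hS
    have g1 : ∑ p ∈ S, t p = ∑ p ∈ S.filter (fun p => t p ≠ 0), t p := (Finset.sum_filter_ne_zero S).symm
    rw [g1]
    refine (norm_sum_le _ _).trans ?_
    have g2 : S.filter (fun p => t p ≠ 0) ⊆ Q := by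
      intro p hp
      exact hS p (Finset.mem_filter.1 hp).1 (Finset.mem_filter.1 hp).2
    calc ∑ p ∈ S.filter (fun p => t p ≠ 0), ‖t p‖ ≤ ∑ p ∈ S.filter (fun p => t p ≠ 0), bd p :=
          Finset.sum_le_sum fun p hp => hQt p (g2 hp)
      _ ≤ ∑ p ∈ Q, bd p := Finset.sum_le_sum_of_subset_of_nonneg g2 fun p _ _ => hbd0 p
  -- if `t p` is not zero then some indicator is not zero
  have hne : ∀ p ∈ ZD N ×ˢ ZD N, t p ≠ 0 → dl p.1 p.2 ≠ 0 ∧ (N8 p.1).sign = (N8 p.2).sign ∧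
      x * (dl p.1 p.2).natAbs ≤ N * A := by
    intro p hp htp
    rw [Finset.mem_product] at hp
    have hd : dl p.1 p.2 ≠ 0 := by
      intro h
      apply htp
      simp only [ht]
      rw [h]
      simp
    have hS : ERR_S x A f₁ f₂ p.1 p.2 ≠ 0 := by
      intro h
      apply htp
      simp only [ht]
      rw [h, mul_zero]
    have hS2 : ∃ l₁ ∈ Ioc (x : ℤ) (2 * x), ∃ l₂ ∈ Ioc (x : ℤ) (2 * x), Ind A p.1 p.2 l₁ l₂ ≠ 0 := by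
      by_contra hcon
      push Not at hcon
      apply hS
      unfold ERR_S
      refine Finset.sum_eq_zero fun l₁ hl₁ => Finset.sum_eq_zero fun l₂ hl₂ => ?_
      rw [hcon l₁ hl₁ l₂ hl₂]
      simp
    obtain ⟨l₁, hl₁, l₂, hl₂, hI⟩ := hS2
    rw [Finset.mem_Ioc] at hl₁ hl₂
    obtain ⟨r1, -⟩ := hRGV x N A hx hN hAx p.1 hp.1 p.2 hp.2 hd l₁ l₂ hl₁.1 hl₁.2 hl₂.1 hl₂.2
    exact ⟨hd, (r1 hI).1, (r1 hI).2⟩
  have hmemQ : ∀ p ∈ ZD N ×ˢ ZD N, dl p.1 p.2 ≠ 0 → ((dl p.1 p.2).natAbs : ℝ) ≤ C₂ * (N * A / (x * K₁)) → p ∈ Q := by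
    intro p hp hd hle
    rw [hQ, Finset.mem_filter, Finset.mem_Icc]
    exact ⟨hp, Int.natAbs_pos.2 hd, Nat.le_floor hle⟩
  have hB1 : ‖∑ p ∈ Pr x N A K₁ \ PW x N A K K₁ θ, t p‖ ≤ ∑ p ∈ Q, bd p := by
    refine hgen _ fun p hp htp => ?_
    rw [Finset.mem_sdiff] at hp
    have hpZ := hPrZ hp.1
    obtain ⟨hd, hs, hle⟩ := hne p hpZ htp
    have hpZ' := Finset.mem_product.1 hpZ
    obtain ⟨r1, r2⟩ := hPRM x N A K K₁ hx hN hA hAx hK₁ hKK θ p.1 hpZ'.1 p.2 hpZ'.2 hs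
    have r3 := r1 hle
    have r4 : (K₁ : ℤ) * |kk (hh x A K) θ p.1 - kk (hh x A K) θ p.2| < (K : ℤ) := by
      by_contra hcon
      apply hp.2
      unfold PW
      rw [Finset.mem_filter]
      exact ⟨hpZ, hs, not_lt.1 hcon, r3⟩
    have r5 := r2 r4
    refine hmemQ p hpZ hd (r5.trans ?_)
    refine mul_le_mul_of_nonneg_right ?_ (by positivity)
    linarith
  have hB2 : ‖∑ p ∈ PW x N A K K₁ θ \ Pr x N A K₁, t p‖ ≤ ∑ p ∈ Q, bd p := by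
    refine hgen _ fun p hp htp => ?_
    rw [Finset.mem_sdiff] at hp
    have hpZ := hPWZ hp.1
    obtain ⟨hd, hs, hle⟩ := hne p hpZ htp
    have r1 : K₁ * (x * (dl p.1 p.2).natAbs) ≤ N * A := by
      by_contra hcon
      apply hp.2
      unfold Pr
      rw [Finset.mem_filter]
      exact ⟨hpZ, not_le.1 hcon, hle⟩
    refine hmemQ p hpZ hd ?_
    have r2 : (K₁ : ℝ) * (x * (dl p.1 p.2).natAbs) ≤ N * A := by exact_mod_cast r1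
    have r3 : ((dl p.1 p.2).natAbs : ℝ) ≤ N * A / (x * K₁) := by
      rw [le_div_iff₀ (by positivity)]
      linarith
    refine r3.trans ?_
    have r4 : (0 : ℝ) ≤ N * A / (x * K₁) := by positivity
    nlinarith
  -- conclusion
  rw [dec]
  refine (norm_sub_le _ _).trans ?_
  refine (add_le_add (norm_add_le _ _) le_rfl).trans ?_
  refine (add_le_add (add_le_add hA1 (hB1.trans hQsum)) (hB2.trans hQsum)).trans ?_
  exact ERR_fin _ _ M Mβ N A K K₁ x _ (by positivity) (by positivity) N0 A0 K0 K10 x0 hLNA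

end Pool.Agent.EU
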